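import Mathlib

/-!
# One-step positive extensions of scalar Toeplitz matrices
-/

set_option autoImplicit false

open Matrix Finset
open scoped ComplexOrder

namespace Pool.Agent.Q193.PTC

/-- The Toeplitz matrix of size `n` of the sequence `a`. -/
def T (a : ℤ → ℂ) (n : ℕ) : Matrix (Fin n) (Fin n) ℂ :=
  Matrix.of fun i j => a ((i : ℤ) - (j : ℤ))

theorem T_apply (a : ℤ → ℂ) (n : ℕ) (i j : Fin n) : T a n i j = a ((i : ℤ) - (j : ℤ)) := rfl

/-- Change the entries of index `± n`. -/
noncomputable def upd (a : ℤ → ℂ) (n : ℕ) (z : ℂ) : ℤ → ℂ :=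
  fun l => if l = n then z else if l = -(n : ℤ) then star z else a l

theorem upd_of_abs_lt {a : ℤ → ℂ} {n : ℕ} {z : ℂ} {l : ℤ} (h : |l| < n) : upd a n z l = a l := by
  have h1 := abs_lt.1 h
  unfold upd
  rw [if_neg (by omega), if_neg (by omega)]

theorem upd_self {a : ℤ → ℂ} {n : ℕ} {z : ℂ} : upd a n z n = z := by
  unfold upd; rw [if_pos rfl]

theorem upd_neg_self {a : ℤ → ℂ} {n : ℕ} (hn : 0 < n) {z : ℂ} : upd a n z (-(n : ℤ)) = star z := by
  unfold upd; rw [if_neg (by omega), if_pos rfl]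

/-- Hermitian sequences. -/
def Herm (a : ℤ → ℂ) : Prop := ∀ l, a (-l) = star (a l)

theorem herm_upd {a : ℤ → ℂ} (ha : Herm a) {n : ℕ} (hn : 0 < n) (z : ℂ) : Herm (upd a n z) := by
  intro l
  unfold upd
  by_cases h1 : l = n
  · rw [if_neg (by omega), if_pos (by omega), if_pos h1]
  · by_cases h2 : l = -(n : ℤ)
    · rw [if_pos (by omega), if_neg h1, if_pos h2, star_star]
    · rw [if_neg (by omega), if_neg (by omega), if_neg h1, if_neg h2, ha]

theorem T_upd_eq {a : ℤ → ℂ} {n : ℕ} {z : ℂ} {m : ℕ} (hm : m ≤ n) : T (upd a n z) m = T a m := by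
  ext i j
  rw [T_apply, T_apply, upd_of_abs_lt]
  have := i.2; have := j.2
  rw [abs_lt]; omega

theorem T_isHermitian {a : ℤ → ℂ} (ha : Herm a) (n : ℕ) : (T a n).IsHermitian := by
  ext i j
  rw [conjTranspose_apply, T_apply, T_apply, ← ha]
  congr 1; ring

/-- The quadratic form. -/
noncomputable def q (a : ℤ → ℂ) (n : ℕ) (p : Fin n → ℂ) : ℂ := star p ⬝ᵥ (T a n) *ᵥ p

theorem q_eq (a : ℤ → ℂ) (n : ℕ) (p : Fin n → ℂ) :
    q a n p = ∑ i : Fin n, ∑ j : Fin n, star (p i) * (a ((i : ℤ) - (j : ℤ)) * p j) := by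
  unfold q dotProduct mulVec dotProduct
  simp only [Pi.star_apply, T_apply, Finset.mul_sum]

theorem psd_iff {a : ℤ → ℂ} (ha : Herm a) {n : ℕ} :
    (T a n).PosSemidef ↔ ∀ p, 0 ≤ q a n p := by
  rw [posSemidef_iff_dotProduct_mulVec]
  exact ⟨fun h => h.2, fun h => ⟨T_isHermitian ha n, h⟩⟩

theorem pd_iff {a : ℤ → ℂ} (ha : Herm a) {n : ℕ} :
    (T a n).PosDef ↔ ∀ p, p ≠ 0 → 0 < q a n p := by
  rw [posDef_iff_dotProduct_mulVec]
  exact ⟨fun h p hp => h.2 hp, fun h => ⟨T_isHermitian ha n, fun p hp => h p hp⟩⟩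

/-- Principal submatrices. -/
theorem psd_mono {a : ℤ → ℂ} {m n : ℕ} (hmn : m ≤ n) (h : (T a n).PosSemidef) :
    (T a m).PosSemidef := by
  have h1 := h.submatrix (Fin.castLE hmn)
  have h2 : (T a n).submatrix (Fin.castLE hmn) (Fin.castLE hmn) = T a m := by
    ext i j; rfl
  rwa [h2] at h1

theorem pd_mono {a : ℤ → ℂ} {m n : ℕ} (hmn : m ≤ n) (h : (T a n).PosDef) :
    (T a m).PosDef := by
  have h1 := h.submatrix (e := Fin.castLE hmn) (Fin.castLE_injective hmn)
  have h2 : (T a n).submatrix (Fin.castLE hmn) (Fin.castLE hmn) = T a m := by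
    ext i j; rfl
  rwa [h2] at h1

/-- Adding a vector at the end: the quadratic form splits. -/
theorem q_succ {b : ℤ → ℂ} (hb : Herm b) {n : ℕ} (x : Fin n → ℂ)
    (hx : ∀ i : Fin n, ∑ j : Fin n, b ((i : ℤ) - (j : ℤ)) * x j = b ((i : ℤ) - n))
    (p : Fin (n + 1) → ℂ) :
    q b (n + 1) p = q b n (fun i => p i.castSucc + p (Fin.last n) * x i) +
      star (p (Fin.last n)) * p (Fin.last n) * (b 0 - q b n x) := by
  have hx' : ∀ j : Fin n, ∑ i : Fin n, star (x i) * b ((i : ℤ) - (j : ℤ)) = b ((n : ℤ) - j) := by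
    intro j
    have h1 := congrArg star (hx j)
    rw [star_sum, ← hb] at h1
    rw [show ((n : ℤ) - j) = -((j : ℤ) - n) by ring, ← h1]
    refine Finset.sum_congr rfl fun i _ => ?_
    rw [star_mul, ← hb, neg_sub, mul_comm]
  rw [q_eq, q_eq, q_eq]
  simp only [Fin.sum_univ_castSucc, Fin.val_castSucc, Fin.val_last, sub_self]
  set s := p (Fin.last n)
  have e1 : ∑ i : Fin n, ∑ j : Fin n, star (p i.castSucc + s * x i) *
      (b ((i : ℤ) - (j : ℤ)) * (p j.castSucc + s * x j)) =
      ∑ i : Fin n, ∑ j : Fin n, star (p i.castSucc) * (b ((i : ℤ) - (j : ℤ)) * p j.castSucc) +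
      ∑ i : Fin n, star (p i.castSucc) * (b ((i : ℤ) - n) * s) +
      ∑ j : Fin n, star s * (b ((n : ℤ) - j) * p j.castSucc) +
      star s * s * ∑ i : Fin n, ∑ j : Fin n, star (x i) * (b ((i : ℤ) - (j : ℤ)) * x j) := by
    have e2 : ∑ i : Fin n, star (p i.castSucc) * (b ((i : ℤ) - n) * s) =
        ∑ i : Fin n, ∑ j : Fin n, star (p i.castSucc) * (b ((i : ℤ) - (j : ℤ)) * (s * x j)) := by
      refine Finset.sum_congr rfl fun i _ => ?_
      rw [← hx i, Finset.sum_mul, Finset.mul_sum]
      exact Finset.sum_congr rfl fun j _ => by ring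
    have e3 : ∑ j : Fin n, star s * (b ((n : ℤ) - j) * p j.castSucc) =
        ∑ i : Fin n, ∑ j : Fin n, star (s * x i) * (b ((i : ℤ) - (j : ℤ)) * p j.castSucc) := by
      rw [Finset.sum_comm]
      refine Finset.sum_congr rfl fun j _ => ?_
      rw [← hx' j, Finset.sum_mul, Finset.mul_sum]
      exact Finset.sum_congr rfl fun i _ => by rw [star_mul]; ring
    rw [e2, e3, Finset.mul_sum, ← Finset.sum_add_distrib, ← Finset.sum_add_distrib,
      ← Finset.sum_add_distrib]
    refine Finset.sum_congr rfl fun i _ => ?_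
    rw [Finset.mul_sum, ← Finset.sum_add_distrib, ← Finset.sum_add_distrib,
      ← Finset.sum_add_distrib]
    refine Finset.sum_congr rfl fun j _ => ?_
    rw [star_add, star_mul]; ring
  rw [e1, Finset.sum_add_distrib]
  ring

/-- Positive definite one-step extension. -/
theorem extPD {a : ℤ → ℂ} (ha : Herm a) {n : ℕ} (h : (T a (n + 1)).PosDef) :
    ∃ z, (T (upd a (n + 1) z) (n + 2)).PosDef := by
  -- solve the linear system
  have hPD : (T a n).PosDef := pd_mono (Nat.le_succ n) h
  have hinj : Function.Injective ((T a n).mulVecLin) := by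
    rw [injective_iff_map_eq_zero]
    intro v hv
    by_contra hne
    have h1 := (pd_iff ha).1 hPD v hne
    unfold q at h1
    rw [mulVecLin_apply] at hv
    rw [hv, dotProduct_zero] at h1
    exact lt_irrefl _ h1
  have hsurj := LinearMap.injective_iff_surjective.1 hinj
  obtain ⟨x', hx'⟩ := hsurj (fun i => a ((i : ℤ) - n))
  have hx'' : ∀ i : Fin n, ∑ j : Fin n, a ((i : ℤ) - (j : ℤ)) * x' j = a ((i : ℤ) - n) := by
    intro i
    have := congrFun hx' i
    simpa only [mulVecLin_apply, mulVec, dotProduct, T_apply] using this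
  let x : Fin (n + 1) → ℂ := Fin.cons 0 x'
  let z : ℂ := star (∑ j : Fin n, a (-1 - (j : ℤ)) * x' j)
  refine ⟨z, ?_⟩
  set b := upd a (n + 1) z with hbdef
  have hb : Herm b := herm_upd ha (Nat.succ_pos n) z
  have hTb : T b (n + 1) = T a (n + 1) := T_upd_eq le_rfl
  have hba : ∀ i j : Fin (n + 1), b ((i : ℤ) - (j : ℤ)) = a ((i : ℤ) - (j : ℤ)) := by
    intro i j
    rw [hbdef, upd_of_abs_lt]
    have := i.2; have := j.2
    rw [abs_lt]; push_cast; omega
  have hstar : ∀ i : Fin (n + 1), ∑ j : Fin (n + 1), b ((i : ℤ) - (j : ℤ)) * x j = b ((i : ℤ) - ((n + 1 : ℕ) : ℤ)) := by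
    intro i
    rw [Fin.sum_univ_succ]
    have h0 : x 0 = 0 := rfl
    have hs : ∀ j : Fin n, x j.succ = x' j := fun j => rfl
    rw [h0, mul_zero, zero_add]
    refine Fin.cases ?_ (fun i => ?_) i
    · have h2 : b (((0 : Fin (n + 1)) : ℕ) - ((n + 1 : ℕ) : ℤ)) = star z := by
        rw [hbdef]
        have := upd_neg_self (a := a) (Nat.succ_pos n) (z := z)
        rw [← this]
        congr 1
      rw [h2]
      simp only [z, star_star]
      refine Finset.sum_congr rfl fun j _ => ?_
      rw [hba, hs]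
      congr 2
      simp only [Fin.val_zero, Fin.val_succ]; push_cast; ring
    · have h2 : b ((i.succ : ℕ) - ((n + 1 : ℕ) : ℤ)) = a ((i : ℤ) - n) := by
        rw [hbdef, upd_of_abs_lt]
        · congr 1; simp only [Fin.val_succ]; push_cast; ring
        · have := i.2
          simp only [Fin.val_succ]; push_cast
          rw [abs_lt]; constructor <;> omega
      rw [h2, ← hx'' i]
      refine Finset.sum_congr rfl fun j _ => ?_
      rw [hba, hs]
      congr 2
      simp only [Fin.val_succ]; push_cast; ring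
  -- the defect is positive
  have hdef : 0 < b 0 - q b (n + 1) x := by
    -- apply positivity to the shifted vector
    have h3 := (pd_iff ha).1 h (Fin.snoc (fun i => -x' i) 1 : Fin (n + 1) → ℂ) (by
      intro h4
      have := congrFun h4 (Fin.last n)
      simp at this)
    have h5 := q_succ ha x' hx'' (Fin.snoc (fun i => -x' i) 1 : Fin (n + 1) → ℂ)
    rw [h5] at h3
    have h6 : (fun i : Fin n => (Fin.snoc (fun i => -x' i) 1 : Fin (n + 1) → ℂ) i.castSucc +
        (Fin.snoc (fun i => -x' i) 1 : Fin (n + 1) → ℂ) (Fin.last n) * x' i) = 0 := by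
      funext i
      simp
    rw [h6] at h3
    have h7 : q a n 0 = 0 := by unfold q; simp
    rw [h7, zero_add] at h3
    have h8 : q b (n + 1) x = q a n x' := by
      rw [q_eq, q_eq, Fin.sum_univ_succ]
      have h0 : x 0 = 0 := rfl
      have hs : ∀ j : Fin n, x j.succ = x' j := fun j => rfl
      rw [h0, star_zero]
      simp only [zero_mul, Finset.sum_const_zero, zero_add]
      refine Finset.sum_congr rfl fun i _ => ?_
      rw [Fin.sum_univ_succ, h0, mul_zero, mul_zero, zero_add]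
      refine Finset.sum_congr rfl fun j _ => ?_
      rw [hba, hs, hs]
      congr 3
      simp only [Fin.val_succ]; push_cast; ring
    have h9 : b 0 = a 0 := by
      have := hba 0 0
      simpa using this
    rw [h8, h9]
    simpa using h3
  rw [pd_iff hb]
  intro p hp
  have hq := q_succ hb x hstar p
  rw [hq]
  have hqb : ∀ u, q b (n + 1) u = q a (n + 1) u := by
    intro u; unfold q; rw [hTb]
  by_cases hs : p (Fin.last (n + 1)) = 0
  · rw [hs]
    simp only [zero_mul, add_zero, star_zero, mul_zero]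
    rw [hqb]
    refine (pd_iff ha).1 h _ ?_
    intro h4
    apply hp
    funext i
    refine Fin.lastCases ?_ (fun i => ?_) i
    · exact hs
    · exact congrFun h4 i
  · refine add_pos_of_nonneg_of_pos ?_ ?_
    · rw [hqb]; exact (psd_iff ha).1 h.posSemidef _
    · refine mul_pos ?_ hdef
      have : star (p (Fin.last (n + 1))) * p (Fin.last (n + 1)) =
          ((‖p (Fin.last (n + 1))‖ ^ 2 : ℝ) : ℂ) := by
        rw [Complex.star_def, Complex.conj_mul']; push_cast; rfl
      rw [this]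
      have h10 : 0 < ‖p (Fin.last (n + 1))‖ ^ 2 := by positivity
      exact_mod_cast h10

end Pool.Agent.Q193.PTC
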