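import Mathlib
import Pool.Agent.Q193.PTC.Scalar

/-!
# Limits of positive Toeplitz matrices, uniqueness in the singular case
-/

set_option autoImplicit false

open Matrix Finset Filter Topology
open scoped ComplexOrder

namespace Pool.Agent.Q193.PTC

theorem continuous_q {n : ℕ} (p : Fin n → ℂ) : Continuous fun a : ℤ → ℂ => q a n p := by
  simp only [q_eq]
  fun_prop

theorem herm_of_tendsto {ι : Type*} {l : Filter ι} [l.NeBot] {f : ι → ℤ → ℂ} {a : ℤ → ℂ}
    (hf : Tendsto f l (𝓝 a)) (h : ∀ i, Herm (f i)) : Herm a := by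
  intro k
  have h1 : Tendsto (fun i => f i (-k)) l (𝓝 (a (-k))) := (tendsto_pi_nhds.1 hf) (-k)
  have h2 : Tendsto (fun i => star (f i k)) l (𝓝 (star (a k))) := ((tendsto_pi_nhds.1 hf) k).star
  exact tendsto_nhds_unique h1 (h2.congr fun i => (h i k).symm)

theorem psd_of_tendsto {ι : Type*} {l : Filter ι} [l.NeBot] {f : ι → ℤ → ℂ} {a : ℤ → ℂ}
    (hf : Tendsto f l (𝓝 a)) (h : ∀ i, Herm (f i)) {n : ℕ} (hp : ∀ i, (T (f i) n).PosSemidef) :
    (T a n).PosSemidef := by
  rw [psd_iff (herm_of_tendsto hf h)]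
  intro p
  have h1 : Tendsto (fun i => q (f i) n p) l (𝓝 (q a n p)) :=
    ((continuous_q p).tendsto a).comp hf
  have h2 : IsClosed {z : ℂ | 0 ≤ z} := isClosed_Ici
  exact h2.mem_of_tendsto h1 (Eventually.of_forall fun i => (psd_iff (h i)).1 (hp i) p)

/-- The off-diagonal entries are bounded by the diagonal ones. -/
theorem norm_le {a : ℤ → ℂ} (ha : Herm a) {n : ℕ} (h : (T a (n + 1)).PosSemidef) :
    ‖a n‖ ≤ (a 0).re ∧ 0 ≤ (a 0).re := by
  have h0 : 0 ≤ (a 0).re := by
    have h1 := h.diag_nonneg (i := 0)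
    rw [T_apply, sub_self] at h1
    exact (Complex.nonneg_iff.1 h1).1
  refine ⟨?_, h0⟩
  have h1 := (h.submatrix ![Fin.last n, 0]).det_nonneg
  rw [det_fin_two] at h1
  simp only [submatrix_apply, cons_val_zero, cons_val_one, T_apply, Fin.val_last, Fin.val_zero,
    sub_self] at h1
  have h2 : a ((n : ℤ) - ((0 : ℕ) : ℤ)) * a (((0 : ℕ) : ℤ) - n) = ((‖a n‖ ^ 2 : ℝ) : ℂ) := by
    have : (((0 : ℕ) : ℤ) - n) = -(n : ℤ) := by simp
    rw [this, ha, Complex.star_def]
    simp only [Nat.cast_zero, sub_zero]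
    rw [Complex.mul_conj']; push_cast; rfl
  rw [h2] at h1
  have h3 : (a 0) = (((a 0).re : ℝ) : ℂ) := by
    have := ha 0
    rw [neg_zero, Complex.star_def] at this
    exact (Complex.conj_eq_iff_re.1 this.symm).symm
  rw [h3] at h1
  have h4 : 0 ≤ (a 0).re * (a 0).re - ‖a n‖ ^ 2 := by
    have h5 : (((a 0).re * (a 0).re - ‖a n‖ ^ 2 : ℝ) : ℂ) =
        ((a 0).re : ℂ) * ((a 0).re : ℂ) - ((‖a n‖ ^ 2 : ℝ) : ℂ) := by push_cast; ring
    rw [← h5] at h1
    exact_mod_cast h1
  exact abs_le_of_sq_le_sq' (by nlinarith) h0 |>.2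

/-- Positive semidefinite one-step extension. -/
theorem extPSD {a : ℤ → ℂ} (ha : Herm a) {n : ℕ} (h : (T a (n + 1)).PosSemidef) :
    ∃ z, (T (upd a (n + 1) z) (n + 2)).PosSemidef := by
  -- perturb
  let f : ℕ → ℤ → ℂ := fun m l => a l + if l = 0 then (((1 / ((m : ℝ) + 1) : ℝ)) : ℂ) else 0
  have hfH : ∀ m, Herm (f m) := by
    intro m l
    have h1 := ha l
    simp only [f, neg_eq_zero, star_add]
    split_ifs with h0
    · rw [h1]; simp only [Complex.star_def, Complex.conj_ofReal]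
    · rw [h1, star_zero]
  have hft : Tendsto f atTop (𝓝 a) := by
    rw [tendsto_pi_nhds]
    intro l
    by_cases h0 : l = 0
    · have h1 : Tendsto (fun m : ℕ => (((1 / ((m : ℝ) + 1) : ℝ)) : ℂ)) atTop (𝓝 ((0 : ℝ) : ℂ)) :=
        (Complex.continuous_ofReal.tendsto 0).comp tendsto_one_div_add_atTop_nhds_zero_nat
      have h2 := h1.const_add (a l)
      simp only [f, if_pos h0]
      simpa using h2
    · simp only [f, if_neg h0, add_zero]
      exact tendsto_const_nhds
  have hfP : ∀ m, (T (f m) (n + 1)).PosDef := by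
    intro m
    have h1 : T (f m) (n + 1) = T a (n + 1) + (((1 / ((m : ℝ) + 1) : ℝ)) : ℂ) • (1 : Matrix _ _ ℂ) := by
      ext i j
      rw [T_apply, Matrix.add_apply, T_apply, Matrix.smul_apply, Matrix.one_apply]
      simp only [f]
      congr 1
      by_cases hij : i = j
      · rw [if_pos (by rw [hij]; ring), if_pos hij]; simp
      · rw [if_neg, if_neg hij]
        · simp
        · intro h2; apply hij
          have : ((i : ℕ) : ℤ) = ((j : ℕ) : ℤ) := by linarith
          exact Fin.ext (by exact_mod_cast this)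
    rw [h1]
    refine PosDef.posSemidef_add h (PosDef.one.smul ?_)
    have : (0 : ℝ) < 1 / ((m : ℝ) + 1) := by positivity
    exact_mod_cast this
  choose z hz using fun m => extPD (hfH m) (hfP m)
  have hb : ∀ m, z m ∈ Metric.closedBall (0 : ℂ) ((a 0).re + 1) := by
    intro m
    rw [mem_closedBall_zero_iff]
    have h1 := (norm_le (herm_upd (hfH m) (Nat.succ_pos n) (z m)) (hz m).posSemidef).1
    rw [upd_self] at h1
    refine h1.trans ?_
    rw [upd_of_abs_lt (by simp)]
    simp only [f, if_pos, Complex.add_re, Complex.ofReal_re]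
    have : (1 : ℝ) / ((m : ℝ) + 1) ≤ 1 := by
      rw [div_le_one (by positivity)]
      have : (0 : ℝ) ≤ m := Nat.cast_nonneg m
      linarith
    linarith
  obtain ⟨w, -, φ, hφ, hw⟩ := (isCompact_closedBall (0 : ℂ) ((a 0).re + 1)).tendsto_subseq hb
  refine ⟨w, ?_⟩
  refine psd_of_tendsto (l := atTop) (f := fun m => upd (f (φ m)) (n + 1) (z (φ m))) ?_
    (fun m => herm_upd (hfH _) (Nat.succ_pos n) _) (fun m => (hz (φ m)).posSemidef)
  rw [tendsto_pi_nhds]
  intro l
  unfold upd
  split_ifs with h1 h2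
  · exact hw
  · exact hw.star
  · exact ((tendsto_pi_nhds.1 hft) l).comp hφ.tendsto_atTop

/-- Uniqueness of the extension when the given matrix is singular. -/
theorem ext_unique {a : ℤ → ℂ} (ha : Herm a) {n : ℕ} (hn : ¬ (T a (n + 1)).PosDef) {z w : ℂ}
    (hz : (T (upd a (n + 1) z) (n + 2)).PosSemidef)
    (hw : (T (upd a (n + 1) w) (n + 2)).PosSemidef) : z = w := by
  classical
  have hex : ∃ m, ¬ (T a (m + 1)).PosDef := ⟨n, hn⟩
  -- the least singular size
  obtain ⟨m, hm, hmn, hmin⟩ : ∃ m, ¬ (T a (m + 1)).PosDef ∧ m ≤ n ∧ (T a m).PosDef := by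
    refine ⟨Nat.find hex, Nat.find_spec hex, Nat.find_min' hex hn, ?_⟩
    rcases Nat.eq_zero_or_pos (Nat.find hex) with h0 | h0
    · rw [h0]
      rw [pd_iff ha]
      intro p hp
      exact absurd (Subsingleton.elim p 0) hp
    · have h1 := Nat.find_min hex (Nat.sub_lt h0 Nat.one_pos)
      rw [not_not] at h1
      rwa [Nat.sub_add_cancel h0] at h1
  have hpsd : (T a (m + 1)).PosSemidef := by
    have h1 := psd_mono (show m + 1 ≤ n + 2 by omega) hz
    rwa [T_upd_eq (by omega)] at h1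
  obtain ⟨v, hv0, hv⟩ : ∃ v, v ≠ 0 ∧ q a (m + 1) v = 0 := by
    rw [pd_iff ha] at hm
    push Not at hm
    obtain ⟨v, hv0, hv⟩ := hm
    refine ⟨v, hv0, ?_⟩
    have h1 := (psd_iff ha).1 hpsd v
    by_contra hne
    exact hv (lt_of_le_of_ne h1 (Ne.symm hne))
  -- its first coordinate does not vanish
  have hv1 : v 0 ≠ 0 := by
    intro h0
    have h1 : q a m (fun i => v i.succ) = 0 := by
      rw [← hv, q_eq, q_eq, Fin.sum_univ_succ, h0, star_zero]
      simp only [zero_mul, Finset.sum_const_zero, zero_add]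
      refine Finset.sum_congr rfl fun i _ => ?_
      rw [Fin.sum_univ_succ, h0, mul_zero, mul_zero, zero_add]
      refine Finset.sum_congr rfl fun j _ => ?_
      congr 3
      simp only [Fin.val_succ]; push_cast; ring
    have h2 : (fun i : Fin m => v i.succ) ≠ 0 := by
      intro h3
      apply hv0
      funext i
      refine Fin.cases h0 (fun i => ?_) i
      exact congrFun h3 i
    have h3 := (pd_iff ha).1 hmin _ h2
    rw [h1] at h3
    exact lt_irrefl _ h3
  -- extend by zero to a kernel vector of the big matrices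
  let V : Fin (n + 2) → ℂ := fun i => if h : (i : ℕ) < m + 1 then v ⟨i, h⟩ else 0
  have key : ∀ u : ℂ, (T (upd a (n + 1) u) (n + 2)).PosSemidef →
      u * v 0 = - ∑ j : Fin m, a ((n : ℤ) - (j : ℤ)) * v j.succ := by
    intro u hu
    have hH := herm_upd ha (Nat.succ_pos n) u
    have hmn' : m + 1 ≤ n + 2 := by omega
    have hsum : ∀ (g : Fin (n + 2) → ℂ), (∀ i : Fin (n + 2), m + 1 ≤ (i : ℕ) → g i = 0) →
        ∑ i, g i = ∑ i : Fin (m + 1), g (Fin.castLE hmn' i) := by
      intro g hg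
      symm
      rw [← Finset.sum_image (s := Finset.univ) (g := Fin.castLE hmn') (f := g)
        (fun i _ j _ hij => Fin.castLE_injective hmn' hij)]
      refine Finset.sum_subset (Finset.subset_univ _) ?_
      intro i _ hi
      apply hg
      by_contra hlt
      push Not at hlt
      apply hi
      rw [Finset.mem_image]
      exact ⟨⟨i, hlt⟩, Finset.mem_univ _, Fin.ext rfl⟩
    have hV : ∀ i : Fin (m + 1), V (Fin.castLE hmn' i) = v i := by
      intro i
      simp only [V, Fin.val_castLE, i.2, dite_true]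
    have hV0 : ∀ i : Fin (n + 2), m + 1 ≤ (i : ℕ) → V i = 0 := by
      intro i hi
      simp only [V, not_lt.2 hi, dite_false]
    have hq0 : q (upd a (n + 1) u) (n + 2) V = 0 := by
      rw [q_eq, hsum _ (fun i hi => by rw [hV0 i hi]; simp)]
      have h1 : ∀ i : Fin (m + 1), ∑ j : Fin (n + 2), star (V (Fin.castLE hmn' i)) *
          (upd a (n + 1) u (((Fin.castLE hmn' i : Fin (n + 2)) : ℤ) - (j : ℤ)) * V j) =
          ∑ j : Fin (m + 1), star (v i) * (a ((i : ℤ) - (j : ℤ)) * v j) := by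
        intro i
        rw [hsum _ (fun j hj => by rw [hV0 j hj]; simp)]
        refine Finset.sum_congr rfl fun j _ => ?_
        rw [hV, hV, upd_of_abs_lt]
        · rfl
        · have := i.2; have := j.2
          simp only [Fin.val_castLE]
          rw [abs_lt]; push_cast; omega
      rw [Finset.sum_congr rfl fun i _ => h1 i, ← q_eq, hv]
    have h2 := (hu.dotProduct_mulVec_zero_iff V).1 hq0
    have h3 := congrFun h2 (Fin.last (n + 1))
    simp only [mulVec, dotProduct, T_apply, Pi.zero_apply, Fin.val_last] at h3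
    rw [hsum _ (fun i hi => by rw [hV0 i hi]; simp), Fin.sum_univ_succ] at h3
    rw [hV] at h3
    have h4 : upd a (n + 1) u (((n + 1 : ℕ) : ℤ) - ((Fin.castLE hmn' (0 : Fin (m + 1)) : Fin (n + 2)) : ℤ)) = u := by
      have : (((n + 1 : ℕ) : ℤ) - ((Fin.castLE hmn' (0 : Fin (m + 1)) : Fin (n + 2)) : ℤ)) = ((n + 1 : ℕ) : ℤ) := by
        simp
      rw [this, upd_self]
    rw [h4] at h3
    have h5 : ∑ j : Fin m, upd a (n + 1) u (((n + 1 : ℕ) : ℤ) - ((Fin.castLE hmn' j.succ : Fin (n + 2)) : ℤ)) *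
        V (Fin.castLE hmn' j.succ) = ∑ j : Fin m, a ((n : ℤ) - (j : ℤ)) * v j.succ := by
      refine Finset.sum_congr rfl fun j _ => ?_
      rw [hV, upd_of_abs_lt]
      · congr 2
        simp only [Fin.val_castLE, Fin.val_succ]; push_cast; ring
      · have := j.2
        simp only [Fin.val_castLE, Fin.val_succ]
        rw [abs_lt]; push_cast; constructor <;> omega
    rw [h5] at h3
    exact eq_neg_of_add_eq_zero_left h3
  have h1 := key z hz
  have h2 := key w hw
  exact mul_right_cancel₀ hv1 (h1.trans h2.symm)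

/-- Positive definiteness is an open condition. -/
theorem pd_eventually {ι : Type*} {l : Filter ι} {f : ι → ℤ → ℂ} {a : ℤ → ℂ}
    (hf : Tendsto f l (𝓝 a)) (ha : Herm a) (h : ∀ i, Herm (f i)) {n : ℕ} (hp : (T a n).PosDef) :
    ∀ᶠ i in l, (T (f i) n).PosDef := by
  have hc : Continuous fun P : (ℤ → ℂ) × (Fin n → ℂ) => (q P.1 n P.2).re := by
    simp only [q_eq]
    fun_prop
  have hopen : IsOpen {P : (ℤ → ℂ) × (Fin n → ℂ) | 0 < (q P.1 n P.2).re} :=
    isOpen_lt continuous_const hc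
  have hsub : ({a} : Set (ℤ → ℂ)) ×ˢ (Metric.sphere (0 : Fin n → ℂ) 1) ⊆
      {P : (ℤ → ℂ) × (Fin n → ℂ) | 0 < (q P.1 n P.2).re} := by
    rintro ⟨b, p⟩ ⟨hb, hpp⟩
    obtain rfl : b = a := hb
    have hne : p ≠ 0 := by
      rintro rfl
      simp at hpp
    exact (Complex.pos_iff.1 ((pd_iff ha).1 hp p hne)).1
  obtain ⟨u, v, hu, -, hau, hv, huv⟩ := generalized_tube_lemma isCompact_singleton
    (isCompact_sphere (0 : Fin n → ℂ) 1) hopen hsub
  filter_upwards [hf (hu.mem_nhds (hau rfl))] with i hi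
  rw [pd_iff (h i)]
  intro p hne
  have hnorm : 0 < ‖p‖ := norm_pos_iff.2 hne
  let s : ℝ := ‖p‖⁻¹
  have hs : 0 < s := inv_pos.2 hnorm
  have h1 : (s : ℂ) • p ∈ Metric.sphere (0 : Fin n → ℂ) 1 := by
    rw [mem_sphere_zero_iff_norm, norm_smul, Complex.norm_real, Real.norm_of_nonneg hs.le]
    exact inv_mul_cancel₀ hnorm.ne'
  have h2 : ((f i), ((s : ℂ) • p)) ∈ {P : (ℤ → ℂ) × (Fin n → ℂ) | 0 < (q P.1 n P.2).re} :=
    huv (Set.mk_mem_prod hi (hv h1))
  rw [Set.mem_ofPred_eq] at h2
  dsimp only at h2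
  have h3 : q (f i) n ((s : ℂ) • p) = (((s ^ 2 : ℝ)) : ℂ) * q (f i) n p := by
    rw [q_eq, q_eq, Finset.mul_sum]
    refine Finset.sum_congr rfl fun i _ => ?_
    rw [Finset.mul_sum]
    refine Finset.sum_congr rfl fun j _ => ?_
    simp only [Pi.smul_apply, smul_eq_mul, star_mul, Complex.star_def, Complex.conj_ofReal]
    push_cast; ring
  rw [h3, Complex.re_ofReal_mul] at h2
  have h4 : 0 < (q (f i) n p).re := (mul_pos_iff_of_pos_left (by positivity)).1 h2
  have h5 : (q (f i) n p).im = 0 := by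
    have h6 : star (q (f i) n p) = q (f i) n p := by
      rw [q_eq, star_sum]
      simp only [star_sum]
      rw [Finset.sum_comm]
      refine Finset.sum_congr rfl fun j _ => Finset.sum_congr rfl fun k _ => ?_
      rw [star_mul, star_mul, star_star, ← h i, neg_sub]
      ring
    rw [Complex.star_def] at h6
    exact Complex.conj_eq_iff_im.1 h6
  rw [Complex.pos_iff]
  exact ⟨h4, h5.symm⟩

end Pool.Agent.Q193.PTC
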