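import Mathlib
import Pool.Agent.Q193.PTC.Limit

/-!
# Continuous positive Toeplitz extensions on the one-point compactification of `ℕ`
-/

set_option autoImplicit false

open Matrix Finset Filter Topology
open scoped ComplexOrder MatrixOrder Matrix.Norms.L2Operator

namespace Pool.Agent.Q193.PTC

/-- A matrix of continuous functions which is pointwise positive semidefinite is of the form
`Zᴴ * Z` with `Z` a matrix of continuous functions. -/
theorem exists_factor {X : Type*} [TopologicalSpace X] {n : ℕ}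
    (Y : Matrix (Fin n) (Fin n) C(X, ℂ)) (h : ∀ x, (Y.map (fun f => f x)).PosSemidef) :
    ∃ Z : Matrix (Fin n) (Fin n) C(X, ℂ), Y = Zᴴ * Z := by
  let F : X → Matrix (Fin n) (Fin n) ℂ := fun x => Y.map (fun f => f x)
  have hF : Continuous F := continuous_matrix fun i j => (Y i j).continuous
  have hF0 : ∀ x, 0 ≤ F x := fun x => (h x).nonneg
  let S : X → Matrix (Fin n) (Fin n) ℂ := fun x => CFC.sqrt (F x)
  have hS : Continuous S := CFC.continuousOn_sqrt.comp_continuous hF hF0
  have hSS : ∀ x, (S x)ᴴ * S x = F x := by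
    intro x
    have h1 : (S x)ᴴ = S x := by
      have h2 : 0 ≤ S x := CFC.sqrt_nonneg (F x)
      exact h2.posSemidef.1
    rw [h1]
    exact CFC.sqrt_mul_sqrt_self (F x) (hF0 x)
  let Z : Matrix (Fin n) (Fin n) C(X, ℂ) :=
    Matrix.of fun i j => ⟨fun x => S x i j, hS.matrix_elem i j⟩
  refine ⟨Z, ?_⟩
  refine Matrix.ext fun i j => ContinuousMap.ext fun x => ?_
  have h1 := congrFun (congrFun (hSS x) i) j
  rw [Matrix.mul_apply] at h1
  rw [show Y i j x = F x i j from rfl, ← h1, Matrix.mul_apply, ContinuousMap.sum_apply]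
  exact Finset.sum_congr rfl fun k _ => rfl

/-- One step of the extension, continuously. -/
theorem one_step (a : ℤ → C(OnePoint ℕ, ℂ)) (hH : ∀ l, a (-l) = star (a l)) {n : ℕ}
    (h : ∀ x, (T (fun l => a l x) (n + 1)).PosSemidef) :
    ∃ z : C(OnePoint ℕ, ℂ), ∀ x, (T (upd (fun l => a l x) (n + 1) (z x)) (n + 2)).PosSemidef := by
  classical
  have hHx : ∀ x, Herm (fun l => a l x) := fun x l => by
    have := congrArg (fun f : C(OnePoint ℕ, ℂ) => f x) (hH l)
    exact this
  choose z' hz' using fun m : ℕ => extPSD (hHx (m : OnePoint ℕ)) (h (m : OnePoint ℕ))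
  have hcont : ∀ l, Tendsto (fun m : ℕ => a l (m : OnePoint ℕ)) atTop (𝓝 (a l OnePoint.infty)) :=
    fun l => (OnePoint.continuous_iff_from_nat _).1 (a l).continuous
  by_cases hPD : (T (fun l => a l OnePoint.infty) (n + 1)).PosDef
  · obtain ⟨w, hw⟩ := extPD (hHx OnePoint.infty) hPD
    let Z : ℕ → ℂ := fun m =>
      if (T (upd (fun l => a l (m : OnePoint ℕ)) (n + 1) w) (n + 2)).PosSemidef then w else z' m
    have hev : ∀ᶠ m : ℕ in atTop,
        (T (upd (fun l => a l (m : OnePoint ℕ)) (n + 1) w) (n + 2)).PosDef := by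
      refine pd_eventually (f := fun m : ℕ => upd (fun l => a l (m : OnePoint ℕ)) (n + 1) w)
        (a := upd (fun l => a l OnePoint.infty) (n + 1) w) ?_
        (herm_upd (hHx _) (Nat.succ_pos n) _) (fun m => herm_upd (hHx _) (Nat.succ_pos n) _) hw
      rw [tendsto_pi_nhds]
      intro l
      unfold upd
      split_ifs
      · exact tendsto_const_nhds
      · exact tendsto_const_nhds
      · exact hcont l
    have hZ : Tendsto Z atTop (𝓝 w) := by
      refine tendsto_const_nhds.congr' ?_
      filter_upwards [hev] with m hm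
      simp only [Z, if_pos hm.posSemidef]
    refine ⟨OnePoint.continuousMapMkNat Z w hZ, fun x => ?_⟩
    induction x using OnePoint.rec with
    | infty =>
      exact hw.posSemidef
    | coe m =>
      change (T (upd (fun l => a l (m : OnePoint ℕ)) (n + 1) (Z m)) (n + 2)).PosSemidef
      by_cases h1 : (T (upd (fun l => a l (m : OnePoint ℕ)) (n + 1) w) (n + 2)).PosSemidef
      · simp only [Z, if_pos h1]; exact h1
      · simp only [Z, if_neg h1]; exact hz' m
  · obtain ⟨w, hw⟩ := extPSD (hHx OnePoint.infty) (h OnePoint.infty)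
    have hbd : ∀ m, z' m ∈ Metric.closedBall (0 : ℂ) ‖a 0‖ := by
      intro m
      rw [mem_closedBall_zero_iff]
      have h1 := (norm_le (herm_upd (hHx _) (Nat.succ_pos n) (z' m)) (hz' m)).1
      rw [upd_self, upd_of_abs_lt (by simp)] at h1
      exact h1.trans ((Complex.re_le_norm _).trans (ContinuousMap.norm_coe_le_norm (a 0) _))
    have hZ : Tendsto z' atTop (𝓝 w) := by
      refine (isCompact_closedBall (0 : ℂ) ‖a 0‖).tendsto_nhds_of_unique_mapClusterPt
        (Eventually.of_forall hbd) ?_
      intro v _ hv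
      obtain ⟨φ, hφ, hvφ⟩ := hv.tendsto_subseq
      refine ext_unique (hHx OnePoint.infty) hPD ?_ hw
      refine psd_of_tendsto (l := atTop)
        (f := fun m => upd (fun l => a l ((φ m : ℕ) : OnePoint ℕ)) (n + 1) (z' (φ m))) ?_
        (fun m => herm_upd (hHx _) (Nat.succ_pos n) _) (fun m => hz' (φ m))
      rw [tendsto_pi_nhds]
      intro l
      unfold upd
      split_ifs
      · exact hvφ
      · exact hvφ.star
      · exact (hcont l).comp hφ.tendsto_atTop
    refine ⟨OnePoint.continuousMapMkNat z' w hZ, fun x => ?_⟩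
    induction x using OnePoint.rec with
    | infty => exact hw
    | coe m => exact hz' m

/-- The extension to every size. -/
theorem all_steps (a : ℤ → C(OnePoint ℕ, ℂ)) (hH : ∀ l, a (-l) = star (a l)) {k : ℕ} (hk : 0 < k)
    (h : ∀ x, (T (fun l => a l x) k).PosSemidef) {n : ℕ} (hkn : k ≤ n) :
    ∃ y : ℤ → C(OnePoint ℕ, ℂ), (∀ l, y (-l) = star (y l)) ∧ (∀ l : ℤ, |l| < k → y l = a l) ∧
      ∀ x, (T (fun l => y l x) n).PosSemidef := by
  induction n, hkn using Nat.le_induction with
  | base => exact ⟨a, hH, fun _ _ => rfl, h⟩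
  | succ n hn ih =>
    obtain ⟨y, hy1, hy2, hy3⟩ := ih
    obtain ⟨n, rfl⟩ : ∃ m, n = m + 1 := ⟨n - 1, by omega⟩
    obtain ⟨z, hz⟩ := one_step y hy1 hy3
    refine ⟨fun l => if l = ((n + 1 : ℕ) : ℤ) then z else if l = -((n + 1 : ℕ) : ℤ) then star z
      else y l, ?_, ?_, ?_⟩
    · intro l
      dsimp only
      by_cases h1 : l = ((n + 1 : ℕ) : ℤ)
      · rw [if_neg (by omega), if_pos (by omega), if_pos h1]
      · by_cases h2 : l = -((n + 1 : ℕ) : ℤ)
        · rw [if_pos (by omega), if_neg h1, if_pos h2, star_star]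
        · rw [if_neg (by omega), if_neg (by omega), if_neg h1, if_neg h2, hy1]
    · intro l hl
      have h1 := abs_lt.1 hl
      dsimp only
      rw [if_neg (by omega), if_neg (by omega), hy2 l hl]
    · intro x
      have h1 : (fun l : ℤ => (if l = ((n + 1 : ℕ) : ℤ) then z else
          if l = -((n + 1 : ℕ) : ℤ) then star z else y l : C(OnePoint ℕ, ℂ)) x) =
          upd (fun l => y l x) (n + 1) (z x) := by
        funext l
        unfold upd
        split_ifs <;> rfl
      rw [h1]
      exact hz x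

end Pool.Agent.Q193.PTC
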